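import Pool.Agent.W973.SRR.Defs

/-!
# Two stable perfect matchings (part ALT of project SRR)
-/

set_option autoImplicit false

namespace Pool.Agent.W171.SRR

open Pool.Agent.W973.SRR Pool.Agent.NPC

theorem alt_tot (n : ℕ) (P : List (List ℕ)) (hP : IsPrefs n P) {a b c : ℕ} (ha : a < n)
    (hb : b < n) (hba : b ≠ a) (hbc : b ≠ c) :
    Pf P a b c ∨ Pf P a c b := by
  have hp := hP.2 a ha
  have hmem : b ∈ P.getD a [] := by
    rw [hp.mem_iff]
    simp [hb, hba]
  have hne : (P.getD a []).idxOf b ≠ (P.getD a []).idxOf c := by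
    intro h
    exact hbc ((List.idxOf_inj hmem).mp h)
  unfold Pf
  omega

theorem alt : S_ALT := by
  classical
  intro n P f g hP hf hg sf sg
  set S := (Finset.range n).filter (fun a => f a ≠ g a ∧ Pf P a (g a) (f a)) with hS
  set T := (Finset.range n).filter (fun a => f a ≠ g a ∧ ¬ Pf P a (g a) (f a)) with hT
  have h1 : ∀ a ∈ S, g a ∈ T := by
    intro a ha
    rw [hS, Finset.mem_filter, Finset.mem_range] at ha
    obtain ⟨han, hne, hpf⟩ := ha
    rw [hT, Finset.mem_filter, Finset.mem_range]
    have hgg := hg.inv a han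
    refine ⟨hg.lt a han, ?_, ?_⟩
    · intro h
      rw [hgg] at h
      apply hne
      have := hf.inv (g a) (hg.lt a han)
      rw [h] at this
      exact this
    · rw [hgg]
      intro h
      exact sf a han (g a) (hg.lt a han) (hg.ne a han).symm (fun h => hne h.symm) ⟨hpf, h⟩
  have h2 : ∀ a ∈ T, f a ∈ S := by
    intro a ha
    rw [hT, Finset.mem_filter, Finset.mem_range] at ha
    obtain ⟨han, hne, hpf⟩ := ha
    rw [hS, Finset.mem_filter, Finset.mem_range]
    have hff := hf.inv a han
    have hfn := hf.lt a han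
    have hgc : g (f a) ≠ a := by
      intro h
      apply hne
      have := hg.inv (f a) hfn
      rw [h] at this
      exact this.symm
    refine ⟨hfn, ?_, ?_⟩
    · rw [hff]
      exact hgc.symm
    · rw [hff]
      have hx : Pf P a (f a) (g a) := by
        rcases alt_tot n P hP han hfn (hf.ne a han) hne with h | h
        · exact h
        · exact absurd h hpf
      have hy : ¬ Pf P (f a) a (g (f a)) := fun h =>
        sg a han (f a) hfn (hf.ne a han).symm hne ⟨hx, h⟩
      rcases alt_tot n P hP hfn (hg.lt _ hfn) (hg.ne _ hfn) hgc with h | h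
      · exact h
      · exact absurd h hy
  have ig : Set.InjOn g (S : Set ℕ) := by
    intro x hx y hy h
    rw [Finset.mem_coe, hS, Finset.mem_filter, Finset.mem_range] at hx hy
    rw [← hg.inv x hx.1, ← hg.inv y hy.1, h]
  have iff' : Set.InjOn f (T : Set ℕ) := by
    intro x hx y hy h
    rw [Finset.mem_coe, hT, Finset.mem_filter, Finset.mem_range] at hx hy
    rw [← hf.inv x hx.1, ← hf.inv y hy.1, h]
  have c2 : T.card ≤ S.card := Finset.card_le_card_of_injOn f h2 iff'
  have himg : S.image g = T := by
    apply Finset.eq_of_subset_of_card_le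
    · intro x hx
      rw [Finset.mem_image] at hx
      obtain ⟨y, hy, rfl⟩ := hx
      exact h1 y hy
    · rw [Finset.card_image_of_injOn ig]
      exact c2
  have h3 : ∀ a ∈ T, g a ∈ S := by
    intro a ha
    rw [← himg, Finset.mem_image] at ha
    obtain ⟨y, hy, rfl⟩ := ha
    have hyn : y < n := by
      rw [hS, Finset.mem_filter, Finset.mem_range] at hy
      exact hy.1
    rw [hg.inv y hyn]
    exact hy
  intro a han hne
  by_cases hpf : Pf P a (g a) (f a)
  · have ha : a ∈ S := by
      rw [hS, Finset.mem_filter, Finset.mem_range]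
      exact ⟨han, hne, hpf⟩
    have hb := h1 a ha
    rw [hT, Finset.mem_filter, hg.inv a han] at hb
    exact ⟨fun _ => hb.2.2, fun _ => hpf⟩
  · have ha : a ∈ T := by
      rw [hT, Finset.mem_filter, Finset.mem_range]
      exact ⟨han, hne, hpf⟩
    have hb := h3 a ha
    rw [hS, Finset.mem_filter, hg.inv a han] at hb
    exact ⟨fun h => absurd h hpf, fun h => absurd hb.2.2 h⟩

end Pool.Agent.W171.SRR
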